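import Pool.Agent.Helper89.GW.Stmts

set_option autoImplicit false

open scoped ContDiff Topology
open Set Filter

namespace GW

theorem spd_shift (a b : ℤ) (F : ℤ → ℝ) (ha : F a = 0) (hb : F (b + 1) = 0) :
    ∑ c ∈ Finset.Icc a b, F (c + 1) = ∑ c ∈ Finset.Icc a b, F c := by
  have h1 : ∑ c ∈ Finset.Icc a b, F (c + 1) = ∑ c ∈ Finset.Icc (a + 1) (b + 1), F c := by
    refine Finset.sum_nbij' (fun c => c + 1) (fun c => c - 1) ?_ ?_ ?_ ?_ ?_
    · intro c hc
      simp only [Finset.mem_Icc] at hc ⊢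
      omega
    · intro c hc
      simp only [Finset.mem_Icc] at hc ⊢
      omega
    · intro c _
      simp
    · intro c _
      simp
    · intro c _
      rfl
  have h2 : ∑ c ∈ Finset.Icc (a + 1) (b + 1), F c = ∑ c ∈ Finset.Icc a (b + 1), F c := by
    refine Finset.sum_subset ?_ ?_
    · intro c hc
      simp only [Finset.mem_Icc] at hc ⊢
      omega
    · intro c hc hc'
      simp only [Finset.mem_Icc] at hc hc'
      have : c = a := by omega
      rw [this, ha]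
  have h3 : ∑ c ∈ Finset.Icc a b, F c = ∑ c ∈ Finset.Icc a (b + 1), F c := by
    refine Finset.sum_subset ?_ ?_
    · intro c hc
      simp only [Finset.mem_Icc] at hc ⊢
      omega
    · intro c hc hc'
      simp only [Finset.mem_Icc] at hc hc'
      have : c = b + 1 := by omega
      rw [this, hb]
  rw [h1, h2, h3]

theorem spd_abel (a b : ℤ) (f g : ℤ → ℝ) (ha : f a = 0) (hb : f (b + 1) = 0) :
    ∑ c ∈ Finset.Icc a b, f c * (g (c - 1) - g c) =
      ∑ c ∈ Finset.Icc a b, (f (c + 1) - f c) * g c := by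
  have h := spd_shift a b (fun c => f c * g (c - 1)) (by simp [ha]) (by simp [hb])
  simp only [add_sub_cancel_right] at h
  simp only [mul_sub, sub_mul, Finset.sum_sub_distrib]
  rw [h]

theorem spd_contDiff (hL : ST_LAM) (z : ℤ → ℤ → ℝ) : ContDiff ℝ ∞ (Sp z) := by
  obtain ⟨hLam, -⟩ := hL
  unfold Sp
  refine ContDiff.sum fun c _ => ContDiff.sum fun k _ => ?_
  refine ContDiff.mul (ContDiff.mul contDiff_const ?_) ?_
  · exact hLam.comp (contDiff_fst.sub contDiff_const)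
  · exact hLam.comp (contDiff_snd.sub contDiff_const)

theorem spd_compact (hL : ST_LAM) (z : ℤ → ℤ → ℝ) : HasCompactSupport (Sp z) := by
  obtain ⟨-, -, -, -, hnn, -, hpos, -⟩ := hL
  refine HasCompactSupport.of_support_subset_isCompact
    ((isCompact_Icc (a := (-20 : ℝ)) (b := 30)).prod (isCompact_Icc (a := (-20 : ℝ)) (b := 30))) ?_
  intro p hp
  rw [Function.mem_support] at hp
  unfold Sp at hp
  obtain ⟨c, hc, h1⟩ := Finset.exists_ne_zero_of_sum_ne_zero hp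
  obtain ⟨k, hk, h2⟩ := Finset.exists_ne_zero_of_sum_ne_zero h1
  rw [Finset.mem_Icc] at hc hk
  have h3 : Lam (p.1 - c) ≠ 0 := fun h => h2 (by rw [h]; ring)
  have h4 : Lam (p.2 - k) ≠ 0 := fun h => h2 (by rw [h]; ring)
  have h5 := (hpos _).1 (lt_of_le_of_ne (hnn _) (Ne.symm h3))
  have h6 := (hpos _).1 (lt_of_le_of_ne (hnn _) (Ne.symm h4))
  rw [abs_lt] at h5 h6
  have c1 : (-12 : ℝ) ≤ c := by exact_mod_cast hc.1
  have c2 : (c : ℝ) ≤ 18 := by exact_mod_cast hc.2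
  have k1 : (-2 : ℝ) ≤ k := by exact_mod_cast hk.1
  have k2 : (k : ℝ) ≤ 26 := by exact_mod_cast hk.2
  refine ⟨⟨?_, ?_⟩, ⟨?_, ?_⟩⟩ <;> linarith [h5.1, h5.2, h6.1, h6.2]

theorem spd_dX (ψ : ℝ × ℝ → ℝ) (hψ : ContDiff ℝ ∞ ψ) (x t : ℝ) :
    HasDerivAt (fun s => ψ (s, t)) (dX ψ (x, t)) x := by
  have h1 : HasFDerivAt ψ (fderiv ℝ ψ (x, t)) (x, t) :=
    (hψ.differentiable (by simp)).differentiableAt.hasFDerivAt
  have h2 : HasDerivAt (fun s : ℝ => (s, t)) ((1 : ℝ), (0 : ℝ)) x :=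
    (hasDerivAt_id x).prodMk (hasDerivAt_const x t)
  exact h1.comp_hasDerivAt x h2

theorem spd_dT (ψ : ℝ × ℝ → ℝ) (hψ : ContDiff ℝ ∞ ψ) (x t : ℝ) :
    HasDerivAt (fun s => ψ (x, s)) (dT ψ (x, t)) t := by
  have h1 : HasFDerivAt ψ (fderiv ℝ ψ (x, t)) (x, t) :=
    (hψ.differentiable (by simp)).differentiableAt.hasFDerivAt
  have h2 : HasDerivAt (fun s : ℝ => (x, s)) ((0 : ℝ), (1 : ℝ)) t :=
    (hasDerivAt_const t x).prodMk (hasDerivAt_id t)
  exact h1.comp_hasDerivAt t h2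

theorem spd_lam (hL : ST_LAM) (x : ℝ) (c : ℤ) :
    HasDerivAt (fun s => Lam (s - c)) (Bx (x - ((c - 1 : ℤ) : ℝ)) - Bx (x - c)) x := by
  obtain ⟨-, -, hd, -⟩ := hL
  have h1 := (hd (x - c)).comp_sub_const x (c : ℝ)
  have h2 : x - (c : ℝ) + 1 = x - ((c - 1 : ℤ) : ℝ) := by push_cast; ring
  rw [h2] at h1
  exact h1

theorem spd_formX (hL : ST_LAM) (z : ℤ → ℤ → ℤ) (hz : SupI z) (x t : ℝ) :
    dX (sp z) (x, t) = ∑ c ∈ Finset.Icc (-12 : ℤ) 18, ∑ k ∈ Finset.Icc (-2 : ℤ) 26,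
      ((z (c + 1) k : ℝ) - z c k) * Bx (x - c) * Lam (t - k) := by
  have h1 := spd_dX (sp z) (spd_contDiff hL _) x t
  have h2 : HasDerivAt (fun s => sp z (s, t))
      (∑ c ∈ Finset.Icc (-12 : ℤ) 18, ∑ k ∈ Finset.Icc (-2 : ℤ) 26,
        (z c k : ℝ) * (Bx (x - ((c - 1 : ℤ) : ℝ)) - Bx (x - c)) * Lam (t - k)) x := by
    unfold sp Sp
    refine HasDerivAt.fun_sum fun c _ => HasDerivAt.fun_sum fun k _ => ?_
    exact ((spd_lam hL x c).const_mul (z c k : ℝ)).mul_const (Lam (t - k))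
  rw [h1.unique h2]
  rw [Finset.sum_comm]
  rw [Finset.sum_comm (s := Finset.Icc (-12 : ℤ) 18) (t := Finset.Icc (-2 : ℤ) 26)]
  refine Finset.sum_congr rfl fun k _ => ?_
  have h3 := spd_abel (-12) 18 (fun c => (z c k : ℝ) * Lam (t - k))
    (fun c => Bx (x - (c : ℝ))) ?_ ?_
  · calc ∑ c ∈ Finset.Icc (-12 : ℤ) 18,
          (z c k : ℝ) * (Bx (x - ((c - 1 : ℤ) : ℝ)) - Bx (x - c)) * Lam (t - k)
        = ∑ c ∈ Finset.Icc (-12 : ℤ) 18, (fun c : ℤ => (z c k : ℝ) * Lam (t - k)) c *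
          ((fun c : ℤ => Bx (x - (c : ℝ))) (c - 1) - (fun c : ℤ => Bx (x - (c : ℝ))) c) := by
          refine Finset.sum_congr rfl fun c _ => ?_
          simp only
          ring
      _ = _ := h3
      _ = _ := by
          refine Finset.sum_congr rfl fun c _ => ?_
          ring
  · have : z (-12) k = 0 := by
      by_contra h
      have := hz _ _ h
      omega
    simp [this]
  · have : z (18 + 1) k = 0 := by
      by_contra h
      have := hz _ _ h
      omega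
    simp only [this]
    simp

theorem spd_formT (hL : ST_LAM) (z : ℤ → ℤ → ℤ) (hz : SupI z) (x t : ℝ) :
    dT (sp z) (x, t) = ∑ c ∈ Finset.Icc (-12 : ℤ) 18, ∑ k ∈ Finset.Icc (-2 : ℤ) 26,
      ((z c (k + 1) : ℝ) - z c k) * Lam (x - c) * Bx (t - k) := by
  have h1 := spd_dT (sp z) (spd_contDiff hL _) x t
  have h2 : HasDerivAt (fun s => sp z (x, s))
      (∑ c ∈ Finset.Icc (-12 : ℤ) 18, ∑ k ∈ Finset.Icc (-2 : ℤ) 26,
        (z c k : ℝ) * Lam (x - c) * (Bx (t - ((k - 1 : ℤ) : ℝ)) - Bx (t - k))) t := by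
    unfold sp Sp
    refine HasDerivAt.fun_sum fun c _ => HasDerivAt.fun_sum fun k _ => ?_
    exact (spd_lam hL t k).const_mul ((z c k : ℝ) * Lam (x - c))
  rw [h1.unique h2]
  refine Finset.sum_congr rfl fun c _ => ?_
  have h3 := spd_abel (-2) 26 (fun k => (z c k : ℝ) * Lam (x - c))
    (fun k => Bx (t - (k : ℝ))) ?_ ?_
  · calc ∑ k ∈ Finset.Icc (-2 : ℤ) 26,
          (z c k : ℝ) * Lam (x - c) * (Bx (t - ((k - 1 : ℤ) : ℝ)) - Bx (t - k))
        = ∑ k ∈ Finset.Icc (-2 : ℤ) 26, (fun k : ℤ => (z c k : ℝ) * Lam (x - c)) k *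
          ((fun k : ℤ => Bx (t - (k : ℝ))) (k - 1) - (fun k : ℤ => Bx (t - (k : ℝ))) k) := by
          refine Finset.sum_congr rfl fun k _ => ?_
          simp only
      _ = _ := h3
      _ = _ := by
          refine Finset.sum_congr rfl fun k _ => ?_
          ring
  · have : z c (-2) = 0 := by
      by_contra h
      have := hz _ _ h
      omega
    simp [this]
  · have : z c (26 + 1) = 0 := by
      by_contra h
      have := hz _ _ h
      omega
    simp only [this]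
    simp

theorem st_SPD (hL : ST_LAM) : ST_SPD := by
  intro z hz
  exact ⟨spd_contDiff hL _, spd_compact hL _, fun x t => spd_formX hL z hz x t,
    fun x t => spd_formT hL z hz x t⟩

end GW
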